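import Pool.Agent.helper73.BRZ.Spec

set_option autoImplicit false

namespace Pool.Agent.BRZ

open Matrix Module Pool.Agent.PR Pool.Agent.SHL TensorProduct MeasureTheory
open scoped ENNReal ContDiff RealInnerProductSpace FourierTransform SchwartzMap

theorem GSU_pi (N : ℕ) (f : ℤ → ℝ≥0∞) :
    ∑' n : Fin N → ℤ, ∏ i, f (n i) = (∑' k, f k) ^ N := by
  induction N with
  | zero =>
    rw [pow_zero, tsum_fintype]
    simp
  | succ N ih =>
    rw [← (Fin.consEquiv (fun _ : Fin (N + 1) => ℤ)).tsum_eq]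
    have h1 : ∀ c : ℤ × (Fin N → ℤ),
        ∏ i, f ((Fin.consEquiv (fun _ : Fin (N + 1) => ℤ)) c i) = f c.1 * ∏ i, f (c.2 i) := by
      rintro ⟨k, m⟩
      rw [Fin.prod_univ_succ]
      rfl
    simp only [h1]
    rw [ENNReal.tsum_prod (f := fun k (m : Fin N → ℤ) => f k * ∏ i, f (m i))]
    simp only [ENNReal.tsum_mul_left, ih, ENNReal.tsum_mul_right]
    rw [pow_succ']

theorem GSU_int (a : ℝ) (ha : 0 < a) :
    ∑' k : ℤ, ENNReal.ofReal (Real.exp (-(a * (k : ℝ) ^ 2))) ≠ ⊤ := by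
  have hnat : Summable fun n : ℕ => Real.exp (-(a * (n : ℝ) ^ 2)) := by
    have hg : Summable fun n : ℕ => Real.exp (-a) ^ n :=
      summable_geometric_of_lt_one (Real.exp_pos _).le (by
        have := Real.exp_lt_exp.2 (show -a < 0 by linarith)
        rwa [Real.exp_zero] at this)
    refine Summable.of_nonneg_of_le (fun n => (Real.exp_pos _).le) (fun n => ?_) hg
    rw [← Real.exp_nat_mul]
    apply Real.exp_le_exp.2
    have h1 : (n : ℝ) ≤ (n : ℝ) ^ 2 := by
      rcases Nat.eq_zero_or_pos n with h | h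
      · simp [h]
      · have : (1 : ℝ) ≤ n := by exact_mod_cast h
        nlinarith
    nlinarith
  have hs : Summable fun k : ℤ => Real.exp (-(a * (k : ℝ) ^ 2)) := by
    apply Summable.of_nat_of_neg
    · simpa using hnat
    · simpa using hnat
  exact hs.tsum_ofReal_ne_top

theorem GSU (hBAS : BAS_stmt) : GSU_stmt := by
  intro d D _ _ _ hd S Y g hg
  obtain ⟨A, e, -, he0, hA⟩ := hBAS d D hd S Y g hg
  constructor
  · intro h
    rw [ENNReal.tsum_eq_zero] at h
    have hne : e (fun _ => 1) ≠ 0 := by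
      intro h1
      rw [← he0] at h1
      have h2 := e.injective h1
      have h3 := congrFun h2 ⟨0, Nat.mul_pos hd hd⟩
      simp at h3
    have h4 := h ⟨e (fun _ => 1), hne⟩
    rw [ENNReal.ofReal_eq_zero] at h4
    exact absurd h4 (not_le.2 (Real.exp_pos _))
  · -- the lower bound for `A`
    let L : EE (d * d) →L[ℝ] EE (d * d) :=
      LinearMap.toContinuousLinearMap (A.symm : EE (d * d) →ₗ[ℝ] EE (d * d))
    have hL : ∀ x, ‖x‖ ≤ (‖L‖ + 1) * ‖A x‖ := by
      intro x
      have h1 : L (A x) = x := A.symm_apply_apply x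
      have h2 := L.le_opNorm (A x)
      rw [h1] at h2
      nlinarith [norm_nonneg (A x)]
    have hK : 0 < ‖L‖ + 1 := by positivity
    set a : ℝ := 1 / (‖L‖ + 1) ^ 2 with ha
    have ha0 : 0 < a := by positivity
    have hlow : ∀ n : Fin (d * d) → ℤ, a * ∑ i, (n i : ℝ) ^ 2 ≤ ‖A (zv n)‖ ^ 2 := by
      intro n
      have h1 : ∑ i, (n i : ℝ) ^ 2 = ‖(zv n : EE (d * d))‖ ^ 2 := by
        rw [EuclideanSpace.real_norm_sq_eq]
        rfl
      rw [h1, ha, div_mul_eq_mul_div, one_mul, div_le_iff₀ (by positivity)]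
      exact le_trans (pow_le_pow_left₀ (norm_nonneg _) (hL _) 2) (le_of_eq (by ring))
    have hterm : ∀ n : Fin (d * d) → ℤ,
        ENNReal.ofReal (Real.exp (-‖A (zv n)‖ ^ 2)) ≤
          ∏ i, ENNReal.ofReal (Real.exp (-(a * (n i : ℝ) ^ 2))) := by
      intro n
      rw [← ENNReal.ofReal_prod_of_nonneg (fun i _ => (Real.exp_pos _).le), ← Real.exp_sum]
      apply ENNReal.ofReal_le_ofReal
      apply Real.exp_le_exp.2
      rw [Finset.sum_neg_distrib, ← Finset.mul_sum]
      have := hlow n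
      linarith
    have hle : (∑' z : {z : Y.1 // z ≠ 0}, ENNReal.ofReal (Real.exp (-‖S.act z.1 g‖ ^ 2))) ≤
        ∑' n : Fin (d * d) → ℤ, ∏ i, ENNReal.ofReal (Real.exp (-(a * (n i : ℝ) ^ 2))) := by
      refine le_trans ?_ (ENNReal.tsum_comp_le_tsum_of_injective
        (f := fun z : {z : Y.1 // z ≠ 0} => e.symm z.1)
        (fun x y hxy => Subtype.ext (e.symm.injective hxy)) _)
      refine ENNReal.tsum_le_tsum fun z => ?_
      have h1 : S.act z.1 g = A (zv (e.symm z.1)) := by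
        rw [← hA, e.apply_symm_apply]
      rw [h1]
      exact hterm _
    refine ne_top_of_le_ne_top ?_ hle
    rw [GSU_pi (d * d) (fun k => ENNReal.ofReal (Real.exp (-(a * (k : ℝ) ^ 2))))]
    exact ENNReal.pow_ne_top (GSU_int a ha0)

end Pool.Agent.BRZ
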